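import Pool.Agent.H531R2.AlgPoly

/-!
# The test at the points of the generator of Shpilka and Volkovich

The machine model, the evaluation of circuits and the lemmas on them are those of
`Pool.Agent.H531R2`; only the values of the variables are different.
-/

set_option autoImplicit false

namespace Pool.Agent.W936

open MvPolynomial Pool.Agent.NPC Pool.Agent.H531R2

/-- The value of the variable with the number `i`: the sum of all
`y ∏_{k < M, k ≠ i} (z + k + 1)` with `(y, z)` in the list. -/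
def sv (M i : ℕ) (A : List (ℕ × ℕ)) : ℕ :=
  (A.map fun p => p.1 * (((List.range M).filter fun k => !decide (k = i)).map
    fun k => p.2 + (k + 1)).prod).sum

/-- The list of the values of the variables with the numbers `0, …, m - 1`. -/
def svL (M m : ℕ) (A : List (ℕ × ℕ)) : List ℕ := (List.range m).map fun i => sv M i A

/-- The value of a gate, where the variable with the number `i` has the value `L_i`. -/
def gvL (q : ℕ) (L : List ℕ) (C : List Gate) (l : List ℕ) (c : ℕ × ℕ × ℕ) : ℕ :=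
  if c.1 = 0 then 0 else if c.1 = 1 then 1 else if c.1 = 2 then L.getD (idx C c.2.1) 0
  else if c.1 = 3 then l.getD c.2.1 0 + l.getD c.2.2 0
  else if c.1 = 4 then l.getD c.2.1 0 + (q + 1 - l.getD c.2.2 0)
  else l.getD c.2.1 0 * l.getD c.2.2 0

/-- The values of all gates modulo `q + 1`. -/
def nvalsL (q : ℕ) (L : List ℕ) (C : List Gate) : List ℕ :=
  C.foldl (fun l g => l ++ [gvL q L C l g.code % (q + 1)]) []

/-- The value of the circuit modulo `q + 1`. -/
def nlastL (q : ℕ) (L : List ℕ) (C : List Gate) : ℕ := ((nvalsL q L C).reverse.head?).getD 0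

/-- The test. -/
def testS (v M : ℕ) (P R : List ℕ) (E : ℕ) (C : List Gate) : Bool :=
  wfB C && P.all fun p => (pts v (prs R)).all fun A =>
    decide (nlastL ((p + 2) ^ E - 1) (svL M C.length A) C = 0)

/-- The point given by a list of values. -/
def ptL (C : List Gate) (L : List ℕ) (j : ℕ) : ℤ := ((L.getD (idx C j) 0 : ℕ) : ℤ)

theorem gvL_cast (q : ℕ) (L : List ℕ) (C : List Gate) (l : List ℕ) (hl : ∀ z ∈ l, z ≤ q)
    (g : Gate) : ((gvL q L C l g.code : ℕ) : ZMod (q + 1))
      = g.val (fun j => ((ptL C L j : ℤ) : ZMod (q + 1)))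
        (l.map (fun z : ℕ => (z : ZMod (q + 1)))) := by
  cases g with
  | zero =>
    change ((0 : ℕ) : ZMod (q + 1)) = 0
    simp
  | one =>
    change ((1 : ℕ) : ZMod (q + 1)) = 1
    simp
  | var j =>
    change ((L.getD (idx C j) 0 : ℕ) : ZMod (q + 1)) = (((L.getD (idx C j) 0 : ℕ) : ℤ) : ZMod (q + 1))
    rw [Int.cast_natCast]
  | add a b =>
    change ((l.getD a 0 + l.getD b 0 : ℕ) : ZMod (q + 1)) = _
    rw [Gate.val, Nat.cast_add, getD_map_cast, getD_map_cast]
  | sub a b =>
    change ((l.getD a 0 + (q + 1 - l.getD b 0) : ℕ) : ZMod (q + 1)) = _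
    have h1 : l.getD b 0 ≤ q + 1 := (getD_le hl b).trans (Nat.le_succ q)
    rw [Gate.val, Nat.cast_add, Nat.cast_sub h1, getD_map_cast, getD_map_cast, ZMod.natCast_self]
    ring
  | mul a b =>
    change ((l.getD a 0 * l.getD b 0 : ℕ) : ZMod (q + 1)) = _
    rw [Gate.val, Nat.cast_mul, getD_map_cast, getD_map_cast]

theorem foldlL_le (q : ℕ) (L : List ℕ) (C C' : List Gate) : ∀ l : List ℕ, (∀ z ∈ l, z ≤ q) →
    ∀ z ∈ C'.foldl (fun l g => l ++ [gvL q L C l g.code % (q + 1)]) l, z ≤ q := by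
  induction C' with
  | nil => intro l hl; exact hl
  | cons g C' ih =>
    intro l hl
    rw [List.foldl_cons]
    apply ih
    intro z hz
    rw [List.mem_append, List.mem_singleton] at hz
    rcases hz with hz | hz
    · exact hl z hz
    · rw [hz]
      exact Nat.lt_succ_iff.1 (Nat.mod_lt _ (Nat.succ_pos q))

theorem foldlL_cast (q : ℕ) (L : List ℕ) (C C' : List Gate) : ∀ l : List ℕ,
    (∀ z ∈ l, z ≤ q) →
    (C'.foldl (fun l g => l ++ [gvL q L C l g.code % (q + 1)]) l).map
      (fun z : ℕ => (z : ZMod (q + 1)))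
    = C'.foldl (fun l g => l ++ [g.val (fun j => ((ptL C L j : ℤ) : ZMod (q + 1))) l])
      (l.map (fun z : ℕ => (z : ZMod (q + 1)))) := by
  induction C' with
  | nil => intro l _; rfl
  | cons g C' ih =>
    intro l hl
    rw [List.foldl_cons, List.foldl_cons, ih]
    · rw [List.map_append, List.map_cons, List.map_nil, ZMod.natCast_mod, gvL_cast q L C l hl]
    · exact foldlL_le q L C [g] l hl

theorem foldlL_length (q : ℕ) (L : List ℕ) (C C' : List Gate) : ∀ l : List ℕ,
    (C'.foldl (fun l g => l ++ [gvL q L C l g.code % (q + 1)]) l).length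
      = l.length + C'.length := by
  induction C' with
  | nil => intro l; rfl
  | cons g C' ih =>
    intro l
    rw [List.foldl_cons, ih]
    simp
    omega

theorem nlastL_cast (q : ℕ) (L : List ℕ) (C : List Gate) :
    ((nlastL q L C : ℕ) : ZMod (q + 1))
      = cval (fun j => ((ptL C L j : ℤ) : ZMod (q + 1))) C := by
  have h := foldlL_cast q L C C [] (by simp)
  rw [List.map_nil] at h
  rw [nlastL, cval, vals, ← h, List.getLastD_eq_getLast?, List.getLast?_map,
    ← List.head?_reverse]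
  change _ = (Option.map _ ((nvalsL q L C).reverse.head?)).getD 0
  cases (nvalsL q L C).reverse.head? <;> simp

theorem nlastL_le (q : ℕ) (L : List ℕ) (C : List Gate) : nlastL q L C ≤ q := by
  rw [nlastL]
  cases h : (nvalsL q L C).reverse.head? with
  | none => simp
  | some z =>
    have h1 := List.mem_of_mem_head? (Option.mem_def.2 h)
    rw [List.mem_reverse] at h1
    exact foldlL_le q L C C [] (by simp) z h1

/-- The test of one point is the divisibility of the value of the polynomial. -/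
theorem nlastL_eq_zero_iff (q : ℕ) (L : List ℕ) (C : List Gate) :
    nlastL q L C = 0 ↔ ((q + 1 : ℕ) : ℤ) ∣ eval (ptL C L) (cpoly C) := by
  rw [← ZMod.intCast_zmod_eq_zero_iff_dvd, eval_cpoly]
  have h1 := map_cval (Int.castRingHom (ZMod (q + 1))) (ptL C L) C
  simp only [eq_intCast] at h1
  rw [h1, ← nlastL_cast, ZMod.natCast_eq_zero_iff]
  constructor
  · intro h; rw [h]; exact dvd_zero _
  · intro h
    exact Nat.eq_zero_of_dvd_of_lt h (Nat.lt_succ_iff.2 (nlastL_le q L C))

theorem prod_filter_range {R : Type} [CommSemiring R] (M i : ℕ) (f : ℕ → R) :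
    (((List.range M).filter fun k => !decide (k = i)).map f).prod
      = ∏ k ∈ (Finset.range M).erase i, f k := by
  classical
  have h1 : ((Finset.range M).erase i) = (Finset.range M).filter (fun k => ¬ k = i) := by
    ext k
    simp [and_comm]
  rw [h1, Finset.prod_filter]
  induction M with
  | zero => simp
  | succ M ih =>
    have h2 : ((Finset.range M).erase i) = (Finset.range M).filter (fun k => ¬ k = i) := by
      ext k
      simp [and_comm]
    rw [List.range_succ, List.filter_append, List.map_append, List.prod_append,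
      Finset.prod_range_succ, ih h2]
    congr 1
    by_cases h : M = i
    · simp [h]
    · simp [h]

theorem sv_cast (M i : ℕ) (A : List (ℕ × ℕ)) : ((sv M i A : ℕ) : ℤ) =
    (A.map fun p => (p.1 : ℤ) * ∏ k ∈ (Finset.range M).erase i, ((p.2 : ℤ) + ((k : ℤ) + 1))).sum := by
  induction A with
  | nil => simp [sv]
  | cons a A ih =>
    rw [List.map_cons, List.sum_cons, ← ih]
    change ((a.1 * (((List.range M).filter fun k => !decide (k = i)).map
      fun k => a.2 + (k + 1)).prod + sv M i A : ℕ) : ℤ) = _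
    rw [prod_filter_range]
    push_cast
    ring

theorem getD_svL {M m i : ℕ} (hi : i < m) (A : List (ℕ × ℕ)) :
    (svL M m A).getD i 0 = sv M i A := by
  rw [svL, List.getD_eq_getElem?_getD, List.getElem?_map, List.getElem?_range hi]
  simp

theorem ptL_svL {v M : ℕ} (C : List Gate) (a : Fin (v + v) → ℕ) {j : ℕ} (hj : j ∈ cvars C) :
    ptL C (svL M C.length (List.ofFn fun t : Fin v => (a (Fin.castAdd v t), a (Fin.natAdd v t)))) j
      = ∑ t : Fin v, (a (Fin.castAdd v t) : ℤ) *
        ∏ k ∈ (Finset.range M).erase (idx C j), ((a (Fin.natAdd v t) : ℤ) + ((k : ℤ) + 1)) := by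
  rw [ptL, getD_svL (idx_lt hj), sv_cast, List.map_ofFn, List.sum_ofFn]
  rfl

/-- The test accepts all circuits of the zero polynomial. -/
theorem testS_of_zero (v M : ℕ) (P R : List ℕ) (E : ℕ) (C : List Gate) (hC : WF C)
    (h : cpoly C = 0) : testS v M P R E C = true := by
  rw [testS, Bool.and_eq_true, (wfB_iff C).2 hC, List.all_eq_true]
  refine ⟨rfl, fun p _ => ?_⟩
  rw [List.all_eq_true]
  intro A _
  rw [decide_eq_true_eq, nlastL_eq_zero_iff, h, map_zero]
  exact dvd_zero _

/-! ### The test runs in polynomial time -/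

section Poly

variable {α : Type} [TEnc α]

/-- Products of lists (the proof is the one of `Pool.Agent.H116R3.JM.poly_prod`). -/
theorem poly_prod {l : α → List ℕ} (hl : NPC.Poly l) : NPC.Poly (fun a => (l a).prod) := by
  obtain ⟨r, hr⟩ := hl.sz_le
  refine (NPC.Poly.foldr (s := fun _ => 1) (F := fun _ x s => x * s) hl (NPC.Poly.const 1)
    (NPC.Poly.mul (NPC.Poly.fst (NPC.Poly.snd NPC.Poly.id))
      (NPC.Poly.snd (NPC.Poly.snd NPC.Poly.id)))
    (Polynomial.C 4 * r + Polynomial.C 1) ?_).congr fun a => ?_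
  · intro a k hk
    have key : ∀ l : List ℕ, (l.foldr (fun x s => x * s) 1).size ≤ sz l := by
      intro l
      induction l with
      | nil => simp
      | cons x l ih =>
        rw [List.foldr_cons]
        set s := l.foldr (fun x s => x * s) 1
        have h1 := Nat.lt_size_self x
        have h2 := Nat.lt_size_self s
        have h3 : x * s < 2 ^ (x.size + s.size) := by
          rw [pow_add]
          exact Nat.mul_lt_mul'' h1 h2
        have h4 := Nat.size_le.2 h3
        have h5 := size_le_sz x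
        simp
        omega
    have h1 := sz_nat_le (((l a).drop k).foldr (fun x s => x * s) 1)
    have h2 := key ((l a).drop k)
    have h3 := NPC.Poly.sz_drop_le (l a) k
    have h4 := hr a
    simp only [Polynomial.eval_add, Polynomial.eval_mul, Polynomial.eval_C]
    omega
  · rfl

theorem poly_sv {M i : α → ℕ} {A : α → List (ℕ × ℕ)} (hM : UPoly M) (hi : NPC.Poly i)
    (hA : NPC.Poly A) : NPC.Poly (fun a => sv (M a) (i a) (A a)) := by
  have h1 : NPC.Poly (fun p : α × (ℕ × ℕ) => List.range (M p.1)) :=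
    (hM.comp (NPC.Poly.fst NPC.Poly.id)).range
  have h2 : NPC.Poly (fun q : (α × (ℕ × ℕ)) × ℕ => !decide (q.2 = i q.1.1)) :=
    NPC.Poly.not (NPC.Poly.decide_eq (NPC.Poly.snd NPC.Poly.id)
      (hi.comp (NPC.Poly.fst (NPC.Poly.fst NPC.Poly.id))))
  have h3 : NPC.Poly (fun p : α × (ℕ × ℕ) =>
      (List.range (M p.1)).filter fun k => !decide (k = i p.1)) :=
    NPC.Poly.filter (p := fun (p : α × (ℕ × ℕ)) (k : ℕ) => !decide (k = i p.1)) h1 h2
  have h4 : NPC.Poly (fun q : (α × (ℕ × ℕ)) × ℕ => q.1.2.2 + (q.2 + 1)) :=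
    NPC.Poly.add (NPC.Poly.snd (NPC.Poly.snd (NPC.Poly.fst NPC.Poly.id)))
      (NPC.Poly.add (NPC.Poly.snd NPC.Poly.id) (NPC.Poly.const 1))
  have h5 : NPC.Poly (fun p : α × (ℕ × ℕ) =>
      ((List.range (M p.1)).filter fun k => !decide (k = i p.1)).map fun k => p.2.2 + (k + 1)) :=
    NPC.Poly.map (F := fun (p : α × (ℕ × ℕ)) (k : ℕ) => p.2.2 + (k + 1)) h3 h4
  have h6 := poly_prod h5
  have h7 : NPC.Poly (fun p : α × (ℕ × ℕ) => p.2.1 *
      (((List.range (M p.1)).filter fun k => !decide (k = i p.1)).map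
        fun k => p.2.2 + (k + 1)).prod) :=
    NPC.Poly.mul (NPC.Poly.fst (NPC.Poly.snd NPC.Poly.id)) h6
  have h8 : NPC.Poly (fun a => (A a).map fun p => p.1 *
      (((List.range (M a)).filter fun k => !decide (k = i a)).map
        fun k => p.2 + (k + 1)).prod) :=
    NPC.Poly.map (F := fun a (p : ℕ × ℕ) => p.1 *
      (((List.range (M a)).filter fun k => !decide (k = i a)).map
        fun k => p.2 + (k + 1)).prod) hA h7
  exact NPC.Poly.sum h8

theorem poly_svL {M m : α → ℕ} {A : α → List (ℕ × ℕ)} (hM : UPoly M) (hm : UPoly m)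
    (hA : NPC.Poly A) : NPC.Poly (fun a => svL (M a) (m a) (A a)) := by
  have h1 : NPC.Poly (fun a => List.range (m a)) := hm.range
  have h2 : NPC.Poly (fun p : α × ℕ => sv (M p.1) p.2 (A p.1)) :=
    poly_sv (hM.comp (NPC.Poly.fst NPC.Poly.id)) (NPC.Poly.snd NPC.Poly.id)
      (hA.comp (NPC.Poly.fst NPC.Poly.id))
  exact NPC.Poly.map (F := fun a i => sv (M a) i (A a)) h1 h2

theorem poly_gvL {q : α → ℕ} {L : α → List ℕ} {C : α → List Gate} {l : α → List ℕ}
    {c : α → ℕ × ℕ × ℕ} (hq : NPC.Poly q) (hL : NPC.Poly L) (hC : NPC.Poly C) (hl : NPC.Poly l)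
    (hc : NPC.Poly c) : NPC.Poly (fun a => gvL (q a) (L a) (C a) (l a) (c a)) := by
  have h1 : NPC.Poly (fun a => (c a).1) := NPC.Poly.fst hc
  have h2 : NPC.Poly (fun a => (c a).2.1) := NPC.Poly.fst (NPC.Poly.snd hc)
  have h3 : NPC.Poly (fun a => (c a).2.2) := NPC.Poly.snd (NPC.Poly.snd hc)
  have e : ∀ k : ℕ, NPC.Poly (fun a => decide ((c a).1 = k)) := fun k =>
    NPC.Poly.decide_eq h1 (NPC.Poly.const k)
  have ga : NPC.Poly (fun a => (l a).getD (c a).2.1 0) := NPC.Poly.getD hl h2 (NPC.Poly.const 0)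
  have gb : NPC.Poly (fun a => (l a).getD (c a).2.2 0) := NPC.Poly.getD hl h3 (NPC.Poly.const 0)
  have f5 := NPC.Poly.mul ga gb
  have f4 := NPC.Poly.add ga (NPC.Poly.sub (NPC.Poly.add hq (NPC.Poly.const 1)) gb)
  have f3 := NPC.Poly.add ga gb
  have f2 : NPC.Poly (fun a => (L a).getD (idx (C a) (c a).2.1) 0) :=
    NPC.Poly.getD hL (poly_idx hC h2) (NPC.Poly.const 0)
  have g4 := NPC.Poly.ite (e 4) f4 f5
  have g3 := NPC.Poly.ite (e 3) f3 g4
  have g2 := NPC.Poly.ite (e 2) f2 g3
  have g1 := NPC.Poly.ite (e 1) (NPC.Poly.const 1) g2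
  exact NPC.Poly.ite (e 0) (NPC.Poly.const 0) g1

theorem poly_nvalsL {q : α → ℕ} {L : α → List ℕ} {C : α → List Gate} (hq : NPC.Poly q)
    (hL : NPC.Poly L) (hC : NPC.Poly C) : NPC.Poly (fun a => nvalsL (q a) (L a) (C a)) := by
  obtain ⟨r, hr⟩ := hq.sz_le
  obtain ⟨r', hr'⟩ := hC.sz_le
  unfold nvalsL
  refine NPC.Poly.foldl (F := fun a l g => l ++ [gvL (q a) (L a) (C a) l g.code % (q a + 1)]) hC
    (NPC.Poly.const []) ?_ (r' * (Polynomial.C 2 * r + Polynomial.C 1) + Polynomial.C 1) ?_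
  · have h1 : NPC.Poly (fun p : α × List ℕ × Gate => p.2.1) :=
      NPC.Poly.fst (NPC.Poly.snd NPC.Poly.id)
    have h2 : NPC.Poly (fun p : α × List ℕ × Gate => p.2.2.code) :=
      poly_code (NPC.Poly.snd (NPC.Poly.snd NPC.Poly.id))
    have h3 : NPC.Poly (fun p : α × List ℕ × Gate => q p.1) := hq.comp (NPC.Poly.fst NPC.Poly.id)
    have h4 : NPC.Poly (fun p : α × List ℕ × Gate => L p.1) := hL.comp (NPC.Poly.fst NPC.Poly.id)
    have h5 : NPC.Poly (fun p : α × List ℕ × Gate => C p.1) := hC.comp (NPC.Poly.fst NPC.Poly.id)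
    have h6 := poly_gvL h3 h4 h5 h1 h2
    have h7 := NPC.Poly.mod h6 (NPC.Poly.add h3 (NPC.Poly.const 1))
    exact NPC.Poly.append h1 (NPC.Poly.cons h7 (NPC.Poly.const []))
  · intro a k hk
    have h1 := foldlL_le (q a) (L a) (C a) ((C a).take k) [] (by simp)
    have h2 := foldlL_length (q a) (L a) (C a) ((C a).take k) []
    have h3 := sz_le_length_mul _ (2 * sz (q a)) (fun z hz => sz_nat_mono_le (h1 z hz))
    have h4 := length_lt_sz (C a)
    have h5 := hr' a
    have h6 := hr a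
    rw [h2, List.length_nil, zero_add, List.length_take] at h3
    simp only [Polynomial.eval_add, Polynomial.eval_mul, Polynomial.eval_C]
    refine h3.trans ?_
    have h7 : min k (C a).length ≤ r'.eval (sz a) := by omega
    have h8 : min k (C a).length * (2 * sz (q a) + 1)
        ≤ r'.eval (sz a) * (2 * r.eval (sz a) + 1) := Nat.mul_le_mul h7 (by omega)
    omega

theorem poly_nlastL {q : α → ℕ} {L : α → List ℕ} {C : α → List Gate} (hq : NPC.Poly q)
    (hL : NPC.Poly L) (hC : NPC.Poly C) : NPC.Poly (fun a => nlastL (q a) (L a) (C a)) := by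
  have h1 := poly_nvalsL hq hL hC
  have h2 := NPC.Poly.head? (NPC.Poly.reverse h1)
  exact NPC.Poly.optGetD (g := fun _ => 0) h2 (NPC.Poly.const 0)

theorem poly_testS (v : ℕ) {M : α → ℕ} {P R : α → List ℕ} {E : α → ℕ} {C : α → List Gate}
    (hM : UPoly M) (hP : NPC.Poly P) (hR : NPC.Poly R) (hE : UPoly E) (hC : NPC.Poly C) :
    NPC.Poly (fun a => testS v (M a) (P a) (R a) (E a) (C a)) := by
  have h1 : NPC.Poly (fun p : α × ℕ => pts v (prs (R p.1))) :=
    (poly_pts v (poly_prs hR)).comp (NPC.Poly.fst NPC.Poly.id)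
  have h2 : NPC.Poly (fun p : (α × ℕ) × List (ℕ × ℕ) => p.1.2 + 2) :=
    NPC.Poly.add (NPC.Poly.snd (NPC.Poly.fst NPC.Poly.id)) (NPC.Poly.const 2)
  have h3 : UPoly (fun p : (α × ℕ) × List (ℕ × ℕ) => E p.1.1) :=
    hE.comp (NPC.Poly.fst (NPC.Poly.fst NPC.Poly.id))
  have h4 : NPC.Poly (fun p : (α × ℕ) × List (ℕ × ℕ) => C p.1.1) :=
    hC.comp (NPC.Poly.fst (NPC.Poly.fst NPC.Poly.id))
  have h4' : UPoly (fun p : (α × ℕ) × List (ℕ × ℕ) => M p.1.1) :=
    hM.comp (NPC.Poly.fst (NPC.Poly.fst NPC.Poly.id))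
  have h5 : NPC.Poly (fun p : (α × ℕ) × List (ℕ × ℕ) => (p.1.2 + 2) ^ E p.1.1 - 1) :=
    NPC.Poly.sub (NPC.Poly.npow h2 h3) (NPC.Poly.const 1)
  have h5' : NPC.Poly (fun p : (α × ℕ) × List (ℕ × ℕ) => svL (M p.1.1) (C p.1.1).length p.2) :=
    poly_svL h4' (UPoly.length h4) (NPC.Poly.snd NPC.Poly.id)
  have h6 : NPC.Poly (fun p : (α × ℕ) × List (ℕ × ℕ) =>
      nlastL ((p.1.2 + 2) ^ E p.1.1 - 1) (svL (M p.1.1) (C p.1.1).length p.2) (C p.1.1)) :=
    poly_nlastL h5 h5' h4
  have h7 : NPC.Poly (fun p : (α × ℕ) × List (ℕ × ℕ) =>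
      decide (nlastL ((p.1.2 + 2) ^ E p.1.1 - 1) (svL (M p.1.1) (C p.1.1).length p.2)
        (C p.1.1) = 0)) :=
    NPC.Poly.decide_eq h6 (NPC.Poly.const 0)
  have h8 : NPC.Poly (fun p : α × ℕ => (pts v (prs (R p.1))).all fun A =>
      decide (nlastL ((p.2 + 2) ^ E p.1 - 1) (svL (M p.1) (C p.1).length A) (C p.1) = 0)) :=
    NPC.Poly.all (p := fun (p : α × ℕ) A =>
      decide (nlastL ((p.2 + 2) ^ E p.1 - 1) (svL (M p.1) (C p.1).length A) (C p.1) = 0)) h1 h7
  have h9 : NPC.Poly (fun a => (P a).all fun p => (pts v (prs (R a))).all fun A =>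
      decide (nlastL ((p + 2) ^ E a - 1) (svL (M a) (C a).length A) (C a) = 0)) :=
    NPC.Poly.all (p := fun a p => (pts v (prs (R a))).all fun A =>
      decide (nlastL ((p + 2) ^ E a - 1) (svL (M a) (C a).length A) (C a) = 0)) hP h8
  exact NPC.Poly.and (poly_wfB hC) h9

end Poly

end Pool.Agent.W936
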