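import Pool.Agent.Results.MP_c2aa42_lc.FarSums
import Pool.Agent.Results.MP_c2aa42_lc.SumsOfFormulaProducts

/-!
# The classes of polynomials are closed under injective renaming of the variables
-/

set_option autoImplicit false

namespace Pool.Agent.W936

open MvPolynomial

section Gen

variable {K : Type} [Field K] {n M : ℕ} {τ : Fin n → Fin M}

theorem degreeOf_zero_iff (x : Fin M) (g : MvPolynomial (Fin M) K) :
    degreeOf x g = 0 ↔ ∀ m ∈ g.support, m x = 0 := by
  rw [degreeOf_eq_sup, ← Nat.bot_eq_zero, Finset.sup_eq_bot_iff]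

theorem totalDegree_ren (hτ : Function.Injective τ) (g : MvPolynomial (Fin n) K) :
    (rename τ g).totalDegree = g.totalDegree := by
  classical
  apply le_antisymm (totalDegree_rename_le _ _)
  rw [totalDegree, totalDegree, support_rename_of_injective hτ]
  refine Finset.sup_le fun m hm => ?_
  have h1 := Finset.le_sup (f := fun s : Fin M →₀ ℕ => s.sum fun _ e => e)
    (Finset.mem_image_of_mem (Finsupp.mapDomain τ) hm)
  refine le_trans (le_of_eq ?_) h1
  rw [Finsupp.sum_mapDomain_index (by simp) (by simp)]

theorem vars_ren_sub (g : MvPolynomial (Fin n) K) {x : Fin M} (hx : x ∈ (rename τ g).vars) :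
    ∃ i ∈ g.vars, τ i = x := by
  classical
  have h1 := vars_rename τ g hx
  rw [Finset.mem_image] at h1
  exact h1

theorem mem_vars_ren (hτ : Function.Injective τ) (g : MvPolynomial (Fin n) K) {i : Fin n} :
    τ i ∈ (rename τ g).vars ↔ i ∈ g.vars := by
  classical
  constructor
  · intro h
    obtain ⟨i', hi', h'⟩ := vars_ren_sub g h
    rwa [← hτ h']
  · intro h
    obtain ⟨m, hm, hi⟩ := (mem_vars_iff_mem_support i).1 h
    refine (mem_vars_iff_mem_support _).2 ⟨m.mapDomain τ, ?_, ?_⟩
    · rw [support_rename_of_injective hτ]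
      exact Finset.mem_image_of_mem _ hm
    · rw [Finsupp.mem_support_iff, Finsupp.mapDomain_apply hτ]
      exact Finsupp.mem_support_iff.1 hi

theorem relPrime_ren (hτ : Function.Injective τ) {g h : MvPolynomial (Fin n) K} (hg : g ≠ 0)
    (hgh : IsRelPrime g h) : IsRelPrime (rename τ g) (rename τ h) := by
  classical
  intro d hd1 hd2
  have hr0 : rename τ g ≠ 0 := fun h0 => hg (rename_injective τ hτ (by rw [h0, map_zero]))
  have hv : (↑d.vars : Set (Fin M)) ⊆ Set.range τ := by
    obtain ⟨q, hq⟩ := hd1
    have hd0 : d ≠ 0 := by rintro rfl; rw [zero_mul] at hq; exact hr0 hq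
    have hq0 : q ≠ 0 := by rintro rfl; rw [mul_zero] at hq; exact hr0 hq
    intro x hx
    by_contra hcon
    have h1 : degreeOf x (rename τ g) = 0 := by
      rw [degreeOf_zero_iff]
      intro m hm
      by_contra hne
      have h2 : x ∈ (rename τ g).vars := (mem_vars_iff_mem_support x).2 ⟨m, hm, Finsupp.mem_support_iff.2 hne⟩
      obtain ⟨i, _, hi⟩ := vars_ren_sub g h2
      exact hcon ⟨i, hi⟩
    rw [hq, degreeOf_mul_eq hd0 hq0] at h1
    have h2 : degreeOf x d = 0 := by omega
    rw [degreeOf_zero_iff] at h2
    obtain ⟨m, hm, hi⟩ := (mem_vars_iff_mem_support x).1 (Finset.mem_coe.1 hx)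
    exact Finsupp.mem_support_iff.1 hi (h2 m hm)
  obtain ⟨d', rfl⟩ := exists_rename_eq_of_vars_subset_range d τ hτ hv
  have e1 := map_dvd (killCompl hτ) hd1
  have e2 := map_dvd (killCompl hτ) hd2
  rw [killCompl_rename_app, killCompl_rename_app] at e1 e2
  exact (hgh e1 e2).map (rename τ)

end Gen

section Abp

open Pool.Agent.Results.MP_c2aa42_lc.SumsOfFormulaProducts

variable {n M : ℕ} {τ : Fin n → Fin M}

theorem contents_ren {u : ℕ} (c₀ : Fin u → ℂ)
    (N : ℕ → Matrix (Fin u) (Fin u) (MvPolynomial (Fin n) ℂ)) (b : ℕ) :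
    ∀ j, rename τ (contents c₀ N b j) = contents c₀ (fun b => (N b).map (rename τ)) b j := by
  induction b with
  | zero => intro j; simp only [contents, rename_C]
  | succ b ih =>
    intro j
    simp only [contents, Matrix.vecMul, dotProduct, map_sum, map_mul, ih, Matrix.map_apply]

theorem abp_ren {w s D : ℕ} (hw : 1 ≤ w) (hτ : Function.Injective τ)
    {f : MvPolynomial (Fin n) ℂ} (h : Abp w s D f) : Abp w s D (rename τ f) := by
  classical
  induction h with
  | univariate p i =>
    rw [← Polynomial.aeval_algHom_apply, rename_X]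
    exact Abp.univariate p (τ i)
  | @leaf f hf hw' =>
    refine Abp.leaf ?_ ?_
    · rcases hf with hf | hf
      · left
        rw [support_rename_of_injective hτ]
        exact Finset.card_image_le.trans hf
      · right
        intro a ha
        rw [support_rename_of_injective hτ, Finset.mem_image] at ha
        obtain ⟨b, hb, rfl⟩ := ha
        refine (Finset.card_le_card (Finsupp.mapDomain_support)).trans ?_
        exact Finset.card_image_le.trans (hf b hb)
    · intro x
      by_cases hx : x ∈ Set.range τ
      · obtain ⟨i, rfl⟩ := hx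
        refine le_trans (Finset.card_le_card (t := f.support.image fun a => a i) ?_) (hw' i)
        intro y hy
        rw [Finset.mem_image] at hy
        obtain ⟨a, ha, rfl⟩ := hy
        rw [support_rename_of_injective hτ, Finset.mem_image] at ha
        obtain ⟨b, hb, rfl⟩ := ha
        rw [Finsupp.mapDomain_apply hτ]
        exact Finset.mem_image_of_mem _ hb
      · refine le_trans (Finset.card_le_card (t := {0}) ?_) (by rwa [Finset.card_singleton])
        intro y hy
        rw [Finset.mem_image] at hy
        obtain ⟨a, ha, rfl⟩ := hy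
        rw [support_rename_of_injective hτ, Finset.mem_image] at ha
        obtain ⟨b, hb, rfl⟩ := ha
        rw [Finsupp.mapDomain_of_notMem_range _ _ hx]
        exact Finset.mem_singleton_self _
  | @program D u c₀ N R P hu hocc _ ih =>
    have h1 : rename τ (aeval (contents c₀ N R) P) =
        aeval (contents c₀ (fun b => (N b).map (rename τ)) R) P := by
      rw [comp_aeval_apply]
      congr 2
      funext j
      exact contents_ren c₀ N R j
    rw [h1]
    refine Abp.program c₀ _ R P hu ?_ ?_
    · intro x
      by_cases hx : x ∈ Set.range τ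
      · obtain ⟨i, rfl⟩ := hx
        refine le_trans (Finset.card_le_card ?_) (hocc i)
        intro b hb
        rw [Finset.mem_filter] at hb ⊢
        refine ⟨hb.1, ?_⟩
        obtain ⟨y, z, hyz⟩ := hb.2
        exact ⟨y, z, (mem_vars_ren hτ _).1 hyz⟩
      · refine le_trans (le_of_eq ?_) (Nat.zero_le w)
        rw [Finset.card_eq_zero, Finset.filter_eq_empty_iff]
        rintro b _ ⟨y, z, hyz⟩
        obtain ⟨i, _, hi⟩ := vars_ren_sub _ hyz
        exact hx ⟨i, hi⟩
    · intro b i j
      exact ih b i j

/-- Renaming of the variables of a formula. -/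
noncomputable def renF (τ : Fin n → Fin M) : Formula n → Formula M
  | .leaf g => .leaf (rename τ g)
  | .gate c₀ c₁ c₂ c₃ a b => .gate c₀ c₁ c₂ c₃ (renF τ a) (renF τ b)

theorem renF_value (E : Formula n) : (renF τ E).value = rename τ E.value := by
  induction E with
  | leaf g => rfl
  | gate c₀ c₁ c₂ c₃ a b iha ihb =>
    simp only [renF, Formula.value, map_add, map_mul, rename_C, iha, ihb]

theorem renF_reads (hτ : Function.Injective τ) (E : Formula n) (i : Fin n) :
    (renF τ E).reads (τ i) = E.reads i := by
  classical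
  induction E with
  | leaf g =>
    simp only [renF, Formula.reads]
    simp only [mem_vars_ren hτ g]
  | gate c₀ c₁ c₂ c₃ a b iha ihb => simp only [renF, Formula.reads, iha, ihb]

theorem renF_reads' (E : Formula n) {x : Fin M} (hx : x ∉ Set.range τ) :
    (renF τ E).reads x = 0 := by
  classical
  induction E with
  | leaf g =>
    simp only [renF, Formula.reads]
    rw [if_neg]
    intro h
    obtain ⟨i, _, hi⟩ := vars_ren_sub g h
    exact hx ⟨i, hi⟩
  | gate c₀ c₁ c₂ c₃ a b iha ihb => simp only [renF, Formula.reads, iha, ihb]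

theorem renF_rank (E : Formula n) : (renF τ E).rank = E.rank := by
  classical
  induction E with
  | leaf g => rfl
  | gate c₀ c₁ c₂ c₃ a b iha ihb => simp only [renF, Formula.rank, iha, ihb]

theorem renF_leaves {w s D : ℕ} (hw : 1 ≤ w) (hτ : Function.Injective τ) (E : Formula n)
    (h : E.Leaves (Abp w s D)) : (renF τ E).Leaves (Abp w s D) := by
  induction E with
  | leaf g => exact abp_ren hw hτ h
  | gate c₀ c₁ c₂ c₃ a b iha ihb => exact ⟨iha h.1, ihb h.2⟩

theorem composite_ren {w s D t : ℕ} (hw : 1 ≤ w) (hτ : Function.Injective τ)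
    {g : MvPolynomial (Fin n) ℂ} (h : Composite w s D t g) : Composite w s D t (rename τ g) := by
  obtain ⟨E, P, hE, rfl⟩ := h
  refine ⟨fun i => renF τ (E i), P, fun i => ⟨renF_leaves hw hτ _ (hE i).1, fun x => ?_, ?_⟩, ?_⟩
  · by_cases hx : x ∈ Set.range τ
    · obtain ⟨y, rfl⟩ := hx
      rw [renF_reads hτ]
      exact (hE i).2.1 y
    · rw [renF_reads' _ hx]
      exact Nat.zero_le _
  · rw [renF_rank]
    exact (hE i).2.2
  · rw [comp_aeval_apply]
    congr 2
    funext i
    exact (renF_value _).symm

theorem sums_ren {w s D t κ : ℕ} (hw : 1 ≤ w) (hτ : Function.Injective τ)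
    {f : MvPolynomial (Fin n) ℂ} (h : Sums w s D t κ f) : Sums w s D t κ (rename τ f) := by
  obtain ⟨N, T, hT, hdep, hf⟩ := h
  have hprod : ∀ i, ((T i).map (rename τ)).prod = rename τ (T i).prod := fun i =>
    Multiset.prod_hom (T i) (rename τ)
  refine ⟨N, fun i => (T i).map (rename τ), ?_, ?_, ?_⟩
  · intro i g hg
    rw [Multiset.mem_map] at hg
    obtain ⟨g', hg', rfl⟩ := hg
    exact composite_ren hw hτ (hT i g' hg')
  · intro u hu
    apply hdep u
    simp only [hprod] at hu
    exact AlgebraicIndependent.of_comp (rename τ) hu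
  · simp only [hprod]
    have h2 : (Algebra.adjoin ℂ (Set.range fun i => (T i).prod)).map
        (rename τ : MvPolynomial (Fin n) ℂ →ₐ[ℂ] MvPolynomial (Fin M) ℂ) =
        Algebra.adjoin ℂ (Set.range fun i => rename τ (T i).prod) := by
      rw [AlgHom.map_adjoin, ← Set.range_comp]
      rfl
    rw [← h2]
    exact Subalgebra.mem_map.2 ⟨f, hf, rfl⟩

end Abp

section Far

open Pool.Agent.Results.MP_c2aa42_lc.FarSums

variable {n M : ℕ} {τ : Fin n → Fin M}

theorem simple_ren {k r : ℕ} {g : MvPolynomial (Fin n) ℂ} (h : Simple k r g) :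
    Simple k r (rename τ g) := by
  obtain ⟨q, G, hq, rfl⟩ := h
  refine ⟨fun b => rename τ (q b), G, fun b => (totalDegree_rename_le _ _).trans (hq b), ?_⟩
  rw [comp_aeval_apply]

theorem radDeg_ren (hτ : Function.Injective τ) {p : ℕ} (g : Fin p → MvPolynomial (Fin n) ℂ)
    (e : Fin p → ℕ) : radDeg (fun j => rename τ (g j)) e = radDeg g e := by
  simp only [radDeg, totalDegree_ren hτ]

theorem gap_ren (hτ : Function.Injective τ) {p : ℕ} (g : Fin p → MvPolynomial (Fin n) ℂ)
    (e e' : Fin p → ℕ) : gap (fun j => rename τ (g j)) e e' = gap g e e' := by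
  simp only [gap, totalDegree_ren hτ]

theorem far_ren {k r : ℕ} (hτ : Function.Injective τ) {B : Set (MvPolynomial (Fin n) ℂ)}
    {B' : Set (MvPolynomial (Fin M) ℂ)} (hB : ∀ f ∈ B, rename τ f ∈ B')
    {f : MvPolynomial (Fin n) ℂ} (h : Far k r B f) : Far k r B' (rename τ f) := by
  classical
  have hne : ∀ g : MvPolynomial (Fin n) ℂ, g ≠ 0 → rename τ g ≠ 0 := fun g hg h0 =>
    hg (rename_injective τ hτ (by rw [h0, map_zero]))
  induction h with
  | base h => exact Far.base (hB _ h)
  | simple h => exact Far.simple (simple_ren h)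
  | mul _ _ ih1 ih2 =>
    rw [map_mul]
    exact Far.mul ih1 ih2
  | factor hd hg _ ih => exact Far.factor (map_dvd (rename τ) hd) (hne _ hg) ih
  | component d hd _ ih =>
    refine Far.component d ?_ ?_
    · rw [← rename_homogeneousComponent]
      exact hne _ hd
    · rw [← rename_homogeneousComponent]
      exact ih
  | @sum m p R g e lab hg hgg hfar _ ih =>
    have h1 : ∀ s : Finset (Fin m), rename τ (∑ i ∈ s, R i * ∏ j, g j ^ e i j) =
        ∑ i ∈ s, rename τ (R i) * ∏ j, rename τ (g j) ^ e i j := by
      intro s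
      rw [map_sum]
      refine Finset.sum_congr rfl fun i _ => ?_
      rw [map_mul, map_prod]
      congr 1
      refine Finset.prod_congr rfl fun j _ => ?_
      rw [map_pow]
    rw [h1]
    refine Far.sum (fun i => rename τ (R i)) (fun j => rename τ (g j)) e lab
      (fun j => ⟨hne _ (hg j).1, simple_ren (hg j).2⟩)
      (fun j j' hjj => relPrime_ren hτ (hg j).1 (hgg j j' hjj)) ?_ ?_
    · intro i i' hii
      simp only [radDeg_ren hτ, gap_ren hτ, totalDegree_ren hτ]
      exact hfar i i' hii
    · intro l
      have h2 := ih l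
      rw [h1] at h2
      exact h2

end Far

end Pool.Agent.W936
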