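import Pool.Agent.W936.Mach
import Pool.Agent.W936.Ren
import Pool.Agent.H626R2.Clu.Cl

/-!
# From the integer generator to the generator over the complex numbers
-/

set_option autoImplicit false

namespace Pool.Agent.W936

open MvPolynomial Pool.Agent.H531R2 Pool.Agent.H530R2
open Pool.Agent.Results.MP_c2aa42_lc.FarSums (nd)

/-- The substitution of the seeds. -/
noncomputable def toSV (v M : ℕ) :
    MvPolynomial (Fin (v + v)) ℤ →+* MvPolynomial (Fin v ⊕ Fin v) ℂ :=
  eval₂Hom (C.comp (Int.castRingHom ℂ))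
    (Fin.addCases (motive := fun _ => MvPolynomial (Fin v ⊕ Fin v) ℂ)
      (fun t => C ((-1) ^ (M - 1)) * X (Sum.inl t)) (fun t => -X (Sum.inr t) - 1))

theorem toSV_C (v M : ℕ) (z : ℤ) : toSV v M (C z) = C (z : ℂ) := by
  rw [toSV, eval₂Hom_C]; rfl

theorem toSV_l (v M : ℕ) (t : Fin v) : toSV v M (X (Fin.castAdd v t)) =
    C ((-1) ^ (M - 1)) * X (Sum.inl t) := by
  rw [toSV, eval₂Hom_X', Fin.addCases_left]

theorem toSV_r (v M : ℕ) (t : Fin v) : toSV v M (X (Fin.natAdd v t)) = -X (Sum.inr t) - 1 := by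
  rw [toSV, eval₂Hom_X', Fin.addCases_right]

theorem toSV_gc (v : ℕ) {M : ℕ} (i : Fin M) : toSV v M (gc v M i.val) = gen (nd M) v (X i) := by
  classical
  rw [gc, gen, aeval_X, map_sum]
  refine Finset.sum_congr rfl fun t _ => ?_
  rw [map_mul, map_prod, toSV_l]
  have h1 : (Finset.range M).erase i.val = (Finset.univ.erase i).image Fin.val := by
    ext k
    simp only [Finset.mem_erase, Finset.mem_range, Finset.mem_image, Finset.mem_univ, and_true]
    constructor
    · rintro ⟨h1, h2⟩
      exact ⟨⟨k, h2⟩, fun h => h1 (by rw [← h]), rfl⟩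
    · rintro ⟨k', hk', rfl⟩
      exact ⟨fun h => hk' (Fin.ext h), k'.isLt⟩
  rw [h1, Finset.prod_image (fun a _ b _ h => Fin.ext h)]
  have h2 : ∀ k ∈ Finset.univ.erase i, toSV v M (X (Fin.natAdd v t) + C (((k.val : ℕ) : ℤ) + 1)) =
      (-1) * (X (Sum.inr t) - C (nd M k)) := by
    intro k _
    rw [map_add, toSV_r, toSV_C]
    simp only [nd, Int.cast_add, Int.cast_natCast, Int.cast_one, C_add, C_1]
    ring
  rw [Finset.prod_congr rfl h2, Finset.prod_mul_distrib, Finset.prod_const,
    Finset.card_erase_of_mem (Finset.mem_univ i), Finset.card_univ, Fintype.card_fin]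
  have h3 : (C ((-1 : ℂ) ^ (M - 1)) : MvPolynomial (Fin v ⊕ Fin v) ℂ) * (-1) ^ (M - 1) = 1 := by
    rw [map_pow, map_neg, C_1, ← mul_pow]
    norm_num
  linear_combination (X (Sum.inl t) * ∏ i' ∈ Finset.univ.erase i, (X (Sum.inr t) - C (nd M i'))) * h3

/-- The map to complex coefficients. -/
noncomputable def toC (n : ℕ) : MvPolynomial (Fin n) ℤ →+* MvPolynomial (Fin n) ℂ :=
  map (Int.castRingHom ℂ)

theorem toC_inj {n : ℕ} {P : MvPolynomial (Fin n) ℤ} (h : toC n P = 0) : P = 0 := by
  apply map_injective (Int.castRingHom ℂ) Int.cast_injective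
  rw [map_zero]
  exact h

theorem bridge {v M n : ℕ} (σ : Fin n → ℕ) (idx : ℕ → ℕ) (hlt : ∀ i, idx (σ i) < M)
    (P : MvPolynomial (Fin n) ℤ) : toSV v M (ThS v M idx (rename σ P)) =
      gen (nd M) v (rename (fun i => (⟨idx (σ i), hlt i⟩ : Fin M)) (toC n P)) := by
  have h : ((toSV v M).comp ((ThS v M idx).toRingHom.comp (rename σ).toRingHom)) =
      ((gen (nd M) v).toRingHom.comp ((rename (R := ℂ)
        (fun i => (⟨idx (σ i), hlt i⟩ : Fin M))).toRingHom.comp (toC n))) := by
    apply MvPolynomial.ringHom_ext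
    · intro z
      show toSV v M (ThS v M idx (rename σ (C z))) = gen (nd M) v (rename _ (toC n (C z)))
      rw [rename_C, toC, map_C, rename_C, ThS, algHom_C, algebraMap_eq, toSV_C, gen, algHom_C]
      rfl
    · intro i
      show toSV v M (ThS v M idx (rename σ (X i))) = gen (nd M) v (rename _ (toC n (X i)))
      rw [rename_X, toC, map_X, rename_X, ThS_X]
      exact toSV_gc v (⟨idx (σ i), hlt i⟩ : Fin M)
  exact RingHom.congr_fun h P

/-- A class of polynomials which is closed under renaming and hit by the generator gives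
injective substitutions. -/
theorem injS_of {v n m p : ℕ} (K : ∀ N : ℕ, Set (MvPolynomial (Fin N) ℂ))
    (hren : ∀ (N N' : ℕ) (τ : Fin N → Fin N'), Function.Injective τ → ∀ f ∈ K N,
      rename τ f ∈ K N') (hhit : ∀ N, ∀ f ∈ K N, f ≠ 0 → f ∉ genI (nd N) v)
    (σ : Fin n → ℕ) (hσ : Function.Injective σ) (g : Fin p → MvPolynomial (Fin n) ℤ)
    (e : Fin m → Fin p → ℕ) (hg : ∀ j, g j ≠ 0)
    (hocc : ∀ j, g j = 1 ∨ ∃ i, e i j ≠ 0)
    (hspan : ∀ δ : Fin m → ℤ, toC n (∑ i, C (δ i) * ∏ j, g j ^ e i j) ∈ K n) :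
    InjS v (Finset.univ.image σ) (fun j => rename σ (g j)) e := by
  classical
  intro M idx hidx hlt
  have hlt' : ∀ i, idx (σ i) < M := fun i =>
    hlt _ (Finset.mem_image_of_mem σ (Finset.mem_univ i))
  set τ : Fin n → Fin M := fun i => ⟨idx (σ i), hlt' i⟩ with hτdef
  have hτ : Function.Injective τ := by
    intro i j hij
    have h1 : idx (σ i) = idx (σ j) := congrArg Fin.val hij
    exact hσ (hidx (Finset.mem_coe.2 (Finset.mem_image_of_mem σ (Finset.mem_univ i)))
      (Finset.mem_coe.2 (Finset.mem_image_of_mem σ (Finset.mem_univ j))) h1)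
  have key : ∀ P : MvPolynomial (Fin n) ℤ, toC n P ∈ K n →
      ThS v M idx (rename σ P) = 0 → P = 0 := by
    intro P hP h0
    have h1 := bridge (v := v) σ idx hlt' P
    rw [h0, map_zero] at h1
    by_contra hne
    refine hhit M _ (hren _ _ τ hτ _ hP) ?_ h1.symm
    intro h2
    apply hne
    apply toC_inj
    apply rename_injective τ hτ
    rw [h2, map_zero]
  have hsum : ∀ δ : Fin m → ℤ, ∑ i, C (δ i) * ∏ j, (rename σ (g j)) ^ e i j =
      rename σ (∑ i, C (δ i) * ∏ j, g j ^ e i j) := by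
    intro δ
    rw [map_sum]
    refine Finset.sum_congr rfl fun i _ => ?_
    rw [map_mul, rename_C, map_prod]
    congr 1
    refine Finset.prod_congr rfl fun j _ => ?_
    rw [map_pow]
  constructor
  · intro j h0
    rcases hocc j with h1 | ⟨i, hi⟩
    · simp only [h1, map_one] at h0
      exact one_ne_zero h0
    · -- the product `i` is killed
      have h2 : ThS v M idx (rename σ (∑ i', C (if i' = i then (1 : ℤ) else 0) *
          ∏ j, g j ^ e i' j)) = 0 := by
        rw [← hsum]
        rw [map_sum]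
        refine Finset.sum_eq_zero fun i' _ => ?_
        by_cases hii : i' = i
        · subst hii
          rw [map_mul, map_prod, Finset.prod_eq_zero (Finset.mem_univ j), mul_zero]
          rw [map_pow, h0, zero_pow hi]
        · rw [if_neg hii, C_0, zero_mul, map_zero]
      have h3 := key _ (hspan _) h2
      rw [Finset.sum_eq_single i] at h3
      · rw [if_pos rfl, C_1, one_mul] at h3
        exact Finset.prod_ne_zero_iff.2 (fun j _ => pow_ne_zero _ (hg j)) h3
      · intro i' _ hii
        rw [if_neg hii, C_0, zero_mul]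
      · intro h
        exact absurd (Finset.mem_univ i) h
  · intro δ h0
    rw [hsum] at h0 ⊢
    rw [key _ (hspan δ) h0, map_zero]

end Pool.Agent.W936
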