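import Pool.Agent.Results.MP_c2aa42_lc.FarSums
import Pool.Agent.Results.MP_c2aa42_lc.SumsOfFormulaProducts
import Pool.Agent.H531R2.CircDefs

/-!
# The class of polynomials: definitions

The classes `Far`, `Sums`, `Composite` and `Abp` of polynomials over the complex numbers are those
of the results `FarSums` and `SumsOfFormulaProducts` on the problem MP_c2aa42_lc.
-/

set_option autoImplicit false

namespace Pool.Agent.W936

open MvPolynomial
open Pool.Agent.Results.MP_c2aa42_lc.FarSums (Far)
open Pool.Agent.Results.MP_c2aa42_lc.SumsOfFormulaProducts (Sums)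

/-- `h` is a sum `∑ c_i ∏_j l_j ^ e_ij` of any number of products of polynomials `l_j` of degree at
most one, where the exponent vectors `e_i` lie in `k` balls of radius `r` for the distance
`∑_j |e_j - e'_j|`; the centres are the `b_a`, and `e_i` belongs to the ball around `b_{u i}`. -/
def Clustered (k r : ℕ) {n : ℕ} (h : MvPolynomial (Fin n) ℂ) : Prop :=
  ∃ (m p : ℕ) (l : Fin p → MvPolynomial (Fin n) ℂ) (c : Fin m → ℂ) (e : Fin m → Fin p → ℕ)
    (b : Fin k → Fin p → ℕ) (u : Fin m → Fin k),
    (∀ j, l j ≠ 0 ∧ (l j).totalDegree ≤ 1) ∧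
    (∀ i, ∑ j, ((b (u i) j - e i j) + (e i j - b (u i) j)) ≤ r) ∧
    h = ∑ i, C (c i) * ∏ j, l j ^ e i j

/-- The class of polynomials over the complex numbers from which we start: `Sums w s D t κ`
(polynomials in products of members of `Composite w s D t`, no `κ + 1` of which are algebraically
independent) and `Clustered k r`. -/
def Basic (w s D t κ k r n : ℕ) : Set (MvPolynomial (Fin n) ℂ) :=
  {h | Sums w s D t κ h ∨ Clustered k r h}

/-- `F` is a rational combination `∑ c_i T_i` of `n` power products `T_i = ∏_j g_j ^ e_ij` of `n`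
nonzero polynomials `g_j` in `n` variables with integer coefficients, of degree at most `n` and
with coefficients whose absolute values add up to at most `2 ^ n`. The exponents `e_ij` are at
most `2 ^ n`, the `c_i` are arbitrary rational numbers. All combinations `∑ δ_i T_i` with
integers `δ_i` belong to the class `Far k r (Basic w s D t κ k r n)`. -/
def Few (w s D t κ k r n : ℕ) (F : MvPolynomial (Fin n) ℚ) : Prop :=
  ∃ (g : Fin n → MvPolynomial (Fin n) ℤ) (e : Fin n → Fin n → ℕ) (c : Fin n → ℚ),
    (∀ j, g j ≠ 0 ∧ (g j).totalDegree ≤ n ∧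
      ∑ a ∈ (g j).support, (coeff a (g j)).natAbs ≤ 2 ^ n) ∧
    (∀ i j, e i j ≤ 2 ^ n) ∧
    (∀ δ : Fin n → ℤ, Far k r (Basic w s D t κ k r n)
      (map (Int.castRingHom ℂ) (∑ i, C (δ i) * ∏ j, g j ^ e i j))) ∧
    F = ∑ i, C (c i) * ∏ j, map (Int.castRingHom ℚ) (g j) ^ e i j

/-- Up to the names of its at most `n` variables, `f` is an integer polynomial `f'` which divides,
over the rational numbers, a product of `n` nonzero polynomials with `Few w s D t κ k r n`, and
for all prime numbers `p > n` with at most `n` exceptions, the power `p ^ (n + 1)` does not divide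
all coefficients of `f'`. -/
def Tame (w s D t κ k r n : ℕ) (f : MvPolynomial ℕ ℤ) : Prop :=
  ∃ (σ : Fin n → ℕ) (f' : MvPolynomial (Fin n) ℤ), Function.Injective σ ∧ f = rename σ f' ∧
    (∃ Q : Finset ℕ, Q.card ≤ n ∧
      ∀ p : ℕ, p.Prime → n < p → p ∉ Q → ¬ (C ((p : ℤ) ^ (n + 1)) ∣ f')) ∧
    ∃ F : Fin n → MvPolynomial (Fin n) ℚ, (∀ a, F a ≠ 0 ∧ Few w s D t κ k r n (F a)) ∧
      map (Int.castRingHom ℚ) f' ∣ ∏ a, F a

end Pool.Agent.W936
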