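import Pool.Agent.W936.Bridge
import Pool.Agent.W936.Defs

/-!
# Clusters of products of affine polynomials and the generator of Shpilka and Volkovich

The theorem on clusters is `Pool.Agent.H626R2.Clu.clusters_exps` (helper626).
-/

set_option autoImplicit false

namespace Pool.Agent.W936

open MvPolynomial Pool.Agent.H530R2
open Pool.Agent.Results.MP_c2aa42_lc.FarSums (nd genI_le)

theorem clustered_ren {k r n M : ℕ} {τ : Fin n → Fin M} (hτ : Function.Injective τ)
    {h : MvPolynomial (Fin n) ℂ} (hh : Clustered k r h) : Clustered k r (rename τ h) := by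
  obtain ⟨m, p, l, c, e, b, u, hl, he, rfl⟩ := hh
  refine ⟨m, p, fun j => rename τ (l j), c, e, b, u, fun j => ⟨fun h0 => (hl j).1 ?_,
    (totalDegree_rename_le _ _).trans (hl j).2⟩, he, ?_⟩
  · exact rename_injective τ hτ (by rw [map_zero]; exact h0)
  · rw [map_sum]
    refine Finset.sum_congr rfl fun i _ => ?_
    rw [map_mul, rename_C, map_prod]
    congr 1
    refine Finset.prod_congr rfl fun j _ => ?_
    rw [map_pow]

/-- Polynomials of degree at most one are affine forms. -/
theorem isAf_of_totalDegree {F : Type} [Field F] {σ : Type} [Fintype σ] {g : MvPolynomial σ F}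
    (hg : g.totalDegree ≤ 1) : Pool.Agent.H626R2.Clu.IsAf g := by
  classical
  refine ⟨coeff 0 g, fun i => coeff (Finsupp.single i 1) g, ?_⟩
  ext m
  rw [Pool.Agent.H626R2.Clu.af, coeff_add, coeff_C, coeff_sum]
  have h1 : ∀ i : σ, coeff m (C (coeff (Finsupp.single i 1) g) * X i) =
      if Finsupp.single i 1 = m then coeff (Finsupp.single i 1) g else 0 := by
    intro i
    rw [coeff_C_mul, coeff_X]
    split_ifs <;> simp
  rw [Finset.sum_congr rfl fun i _ => h1 i]
  by_cases hm0 : m = 0
  · subst hm0
    rw [if_pos rfl, Finset.sum_eq_zero, add_zero]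
    intro i _
    rw [if_neg]
    intro h
    have := congrArg (fun f => f i) h
    simp at this
  · rw [if_neg (Ne.symm hm0), zero_add]
    by_cases hm : ∃ i, Finsupp.single i 1 = m
    · obtain ⟨i, rfl⟩ := hm
      rw [Finset.sum_eq_single i]
      · rw [if_pos rfl]
      · intro j _ hj
        rw [if_neg]
        intro h
        have h2 := congrArg (fun f => f j) h
        simp only [Finsupp.single_eq_same] at h2
        rw [Finsupp.single_eq_of_ne hj] at h2
        exact one_ne_zero h2
      · intro h; exact absurd (Finset.mem_univ i) h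
    · push Not at hm
      rw [Finset.sum_eq_zero fun i _ => if_neg (hm i)]
      by_contra hne
      have h2 := le_totalDegree (mem_support_iff.2 hne)
      have h3 : (m.sum fun _ e => e) ≤ 1 := h2.trans hg
      obtain ⟨i, hi⟩ : ∃ i, m i ≠ 0 := by
        by_contra hcon
        push Not at hcon
        exact hm0 (Finsupp.ext hcon)
      apply hm i
      ext j
      have h4 : m.sum (fun _ e => e) = ∑ j, m j := by
        rw [Finsupp.sum_fintype _ _ (fun _ => rfl)]
      rw [h4] at h3
      rw [← Finset.add_sum_erase _ _ (Finset.mem_univ i)] at h3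
      by_cases hj : j = i
      · subst hj
        rw [Finsupp.single_eq_same]
        omega
      · have h5 : m j ≤ ∑ x ∈ Finset.univ.erase i, m x :=
          Finset.single_le_sum (f := fun x => m x) (fun _ _ => Nat.zero_le _)
            (Finset.mem_erase.2 ⟨hj, Finset.mem_univ j⟩)
        rw [Finsupp.single_eq_of_ne hj]
        omega

/-- The curve of Shpilka and Volkovich. -/
noncomputable def cv {F : Type} [Field F] {n : ℕ} (a : Fin n → F) (i : Fin n) : Polynomial F :=
  ∏ i' ∈ Finset.univ.erase i, (Polynomial.X - Polynomial.C (a i'))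

theorem cv_indep {F : Type} [Field F] {n : ℕ} {a : Fin n → F} (ha : Function.Injective a) :
    LinearIndependent F (cv a) := by
  classical
  rw [Fintype.linearIndependent_iff]
  intro c hc i
  have h1 := congrArg (Polynomial.eval (a i)) hc
  rw [Polynomial.eval_finsetSum, Polynomial.eval_zero, Finset.sum_eq_single i] at h1
  · rw [Polynomial.eval_smul, smul_eq_mul] at h1
    rcases mul_eq_zero.1 h1 with h | h
    · exact h
    · exfalso
      rw [cv, Polynomial.eval_prod, Finset.prod_eq_zero_iff] at h
      obtain ⟨j, hj, h2⟩ := h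
      rw [Polynomial.eval_sub, Polynomial.eval_X, Polynomial.eval_C, sub_eq_zero] at h2
      exact (Finset.mem_erase.1 hj).1 (ha h2).symm
  · intro j _ hji
    rw [Polynomial.eval_smul, cv, Polynomial.eval_prod,
      Finset.prod_eq_zero (Finset.mem_erase.2 ⟨hji.symm, Finset.mem_univ i⟩), smul_zero]
    rw [Polynomial.eval_sub, Polynomial.eval_X, Polynomial.eval_C, sub_self]
  · intro h
    exact absurd (Finset.mem_univ i) h

theorem ge_eq {F : Type} [Field F] {n : ℕ} (a : Fin n → F) (T : ℕ) (f : MvPolynomial (Fin n) F) :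
    Pool.Agent.H626R2.Clu.ge (fun _ => 0) (cv a) T f =
      rename (Sum.map Fin.val Fin.val) (gen a T f) := by
  have h : Pool.Agent.H626R2.Clu.ge (fun _ => 0) (cv a) T =
      (rename (R := F) (Sum.map (Fin.val (n := T)) (Fin.val (n := T)))).comp (gen a T) := by
    apply MvPolynomial.algHom_ext
    intro i
    rw [Pool.Agent.H626R2.Clu.ge_X, Pool.Agent.H626R2.Clu.gp, AlgHom.comp_apply, gen, aeval_X,
      map_sum, C_0, zero_add, Finset.sum_range]
    refine Finset.sum_congr rfl fun t _ => ?_
    rw [map_mul, rename_X, cv, map_prod, map_prod]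
    congr 1
    refine Finset.prod_congr rfl fun j _ => ?_
    simp
  rw [h]
  rfl

theorem clustered_hit {k r n v : ℕ} (hv : Pool.Agent.H626R2.Clu.Tn k r r ≤ v)
    {h : MvPolynomial (Fin n) ℂ} (hh : Clustered k r h) (h0 : h ≠ 0) : h ∉ genI (nd n) v := by
  intro hmem
  have h1 : h ∈ genI (nd n) (Pool.Agent.H626R2.Clu.Tn k r r) := genI_le hv hmem
  obtain ⟨m, p, l, c, e, b, u, hl, he, rfl⟩ := hh
  apply h0
  refine Pool.Agent.H626R2.Clu.clusters_exps (fun _ => 0) (cv_indep (nodes_injective n)) l
    (fun j => ⟨isAf_of_totalDegree (hl j).2, (hl j).1⟩) e u b he c ?_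
  have h2 : gen (nd n) (Pool.Agent.H626R2.Clu.Tn k r r) (∑ i, C (c i) * ∏ j, l j ^ e i j) = 0 := h1
  have h3 := ge_eq (nd n) (Pool.Agent.H626R2.Clu.Tn k r r) (∑ i, C (c i) * ∏ j, l j ^ e i j)
  rw [h2, map_zero] at h3
  exact h3

end Pool.Agent.W936
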