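import Pool.Agent.W936.Hit

/-!
# The decision procedure
-/

set_option autoImplicit false

namespace Pool.Agent.W936

open MvPolynomial Pool.Agent.H531R2 Pool.Agent.H626R2 Pool.Agent.H964R3 Pool.Agent.NPC

section UPoly

variable {α : Type} [TEnc α]

theorem uHS (v : ℕ) {n m : α → ℕ} (hn : UPoly n) (hm : UPoly m) :
    UPoly (fun a => HS v (n a) (m a)) :=
  UPoly.mul hn (UPoly.add (UPoly.add (UPoly.add (UPoly.mul (umm v hn hm) (umm v hn hm))
    (umm v hn hm)) (UPoly.const v)) (UPoly.const 2))

theorem uExS (v : ℕ) {n m : α → ℕ} (hn : UPoly n) (hm : UPoly m) :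
    UPoly (fun a => ExS v (n a) (m a)) :=
  UPoly.add hn (UPoly.mul hn (uE1 (v + v) (uHS v hn hm)))

theorem uPPS (v : ℕ) {n m : α → ℕ} (hn : UPoly n) (hm : UPoly m) :
    UPoly (fun a => PPS v (n a) (m a)) :=
  UPoly.add (UPoly.add (UPoly.add (UPoly.add (umm v hn hm) (uExS v hn hm))
    (UPoly.mul (UPoly.mul hn hn) (uHS v hn hm))) hn) (UPoly.const 1)

theorem uDS (v : ℕ) {n m : α → ℕ} (hn : UPoly n) (hm : UPoly m) :
    UPoly (fun a => DS v (n a) (m a)) :=
  UPoly.mul (UPoly.mul hn hn) (uHS v hn hm)

theorem uXS (v : ℕ) {n m : α → ℕ} (hn : UPoly n) (hm : UPoly m) :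
    UPoly (fun a => XS v (n a) (m a)) :=
  upow (UPoly.add (UPoly.add (UPoly.add (uPPS v hn hm) (uDS v hn hm)) hn) (UPoly.const 5)) 2

end UPoly

/-- The decision procedure. -/
def algS (v k : ℕ) (x : List Bool) : Bool :=
  (unbits (List Gate) x).elim false fun C =>
    testS v (mm v (x.length ^ k) x.length) (List.range (XS v (x.length ^ k) x.length + 1))
      (List.range (XS v (x.length ^ k) x.length ^ 2)) (ExS v (x.length ^ k) x.length + 1) C

theorem poly_algS (v k : ℕ) : NPC.Poly (algS v k) := by
  have hm : UPoly (fun p : List Bool × List Gate => p.1.length) :=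
    UPoly.length (NPC.Poly.fst NPC.Poly.id)
  have hn : UPoly (fun p : List Bool × List Gate => p.1.length ^ k) := upow hm k
  have hX : UPoly (fun p : List Bool × List Gate => XS v (p.1.length ^ k) p.1.length) :=
    uXS v hn hm
  have h1 : NPC.Poly (fun p : List Bool × List Gate =>
      List.range (XS v (p.1.length ^ k) p.1.length + 1)) :=
    (UPoly.add hX (UPoly.const 1)).range
  have h2 : NPC.Poly (fun p : List Bool × List Gate =>
      List.range (XS v (p.1.length ^ k) p.1.length ^ 2)) := (upow hX 2).range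
  have h3 : UPoly (fun p : List Bool × List Gate => ExS v (p.1.length ^ k) p.1.length + 1) :=
    UPoly.add (uExS v hn hm) (UPoly.const 1)
  have h4 : NPC.Poly (fun p : List Bool × List Gate => p.2) := NPC.Poly.snd NPC.Poly.id
  have h5 := poly_testS v (umm v hn hm) h1 h2 h3 h4
  exact NPC.Poly.optElim (o := fun x => unbits (List Gate) x) (g := fun _ => false)
    (h := fun (x : List Bool) (C : List Gate) =>
      testS v (mm v (x.length ^ k) x.length) (List.range (XS v (x.length ^ k) x.length + 1))
        (List.range (XS v (x.length ^ k) x.length ^ 2)) (ExS v (x.length ^ k) x.length + 1) C)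
    poly_unbits (NPC.Poly.const false) h5

/-- The main theorem. -/
theorem main_theoremS {v : ℕ} (hv1 : 1 ≤ v) (c : ℕ) : ∃ A : List Bool → List Bool, PolyTime A ∧
    (∀ x, A x = [true] ∨ A x = [false]) ∧
    (∀ x ∈ ACIT, A x = [true]) ∧
    (∀ x, (∀ C : List Gate, WF C → bits C ≠ x) → A x = [false]) ∧
    ∀ C : List Gate, TameS v ((bits C).length ^ c) (cpoly C) → A (bits C) = [false] := by
  refine ⟨fun x => [algS v c x], polyTime_of_poly (poly_algS v c), ?_, ?_, ?_, ?_⟩
  · intro x
    cases h : algS v c x
    · right; simp [h]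
    · left; simp [h]
  · rintro x ⟨C, rfl, hC, h0⟩
    simp only [algS, unbits_bits, Option.elim]
    rw [testS_of_zero v _ _ _ _ C hC h0]
  · intro x hx
    simp only [algS]
    cases h : unbits (List Gate) x with
    | none => rfl
    | some C =>
      have h1 : ¬ WF C := fun hC => hx C hC (bits_of_unbits h)
      simp only [Option.elim]
      rw [← wfB_iff, Bool.not_eq_true] at h1
      rw [testS, h1, Bool.false_and]
  · intro C hC
    simp only [algS, unbits_bits, Option.elim]
    rw [test_of_tameS hv1 _ _ C (m := (bits C).length) ?_ ?_ ?_ hC]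
    · rw [bits_length]
      exact (length_lt_sz C).le
    · intro p hp
      rw [List.mem_range]
      omega
    · intro a ha
      rw [List.mem_range]
      exact ha

end Pool.Agent.W936
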