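import Pool.Agent.W936.Clust

/-!
# The class of circuits and the main theorem
-/

set_option autoImplicit false

namespace Pool.Agent.W936

open MvPolynomial Pool.Agent.NPC Pool.Agent.H531R2 Pool.Agent.H530R2
open Pool.Agent.Results.MP_c2aa42_lc.FarSums (nd genI_le Far Simple)
open Pool.Agent.Results.MP_c2aa42_lc.SumsOfFormulaProducts (Sums Composite Abp)

section

open Pool.Agent.Results.MP_c2aa42_lc.SumsOfFormulaProducts

/-- The hitting theorem for the class. -/
theorem exists_seeds (w s D t κ k r : ℕ) : ∃ v : ℕ, 1 ≤ v ∧ ∀ (N : ℕ)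
    (f : MvPolynomial (Fin N) ℂ), Far k r (Basic w s D t κ k r N) f → f ≠ 0 →
      f ∉ genI (nd N) v := by
  obtain ⟨m, hm⟩ := rank_hit2 (F := ℂ) (famD D) (std_famD D) κ (w + 1) w (nc w κ D)
    (bd w D + (famD D).c0) (Nat.succ_pos w)
  refine ⟨m * (t + 1) * (s + 1) + Pool.Agent.H964R4.N2 k r + Pool.Agent.H626R2.Clu.Tn k r r + 1,
    Nat.le_add_left _ _, fun N f hf hf0 => ?_⟩
  refine hf.hit (by show Pool.Agent.H964R4.N2 k r ≤ _; omega) ?_ hf0
  intro h hh hh0 hmem
  rcases hh with hh | hh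
  · have h2 : h ∈ genI (nd N) (m * (t + 1) * (s + 1)) := genI_le (by omega) hmem
    refine hm N s t (LfD w s D κ) (fun g hg => hg.1) (fun y => LfD.const y)
      (fun A hA g hg => hg.2 A hA) h ?_ hh0 h2
    obtain ⟨N', T, hT, hdep, hmem'⟩ := hh
    exact ⟨N', T, fun i g hg => comp_polyIn (hT i g hg), hdep, hmem'⟩
  · exact clustered_hit (by omega) hh hh0 hmem

end

theorem far_basic_ren {w s D t κ k r : ℕ} (hw : 1 ≤ w) (N N' : ℕ) (τ : Fin N → Fin N')
    (hτ : Function.Injective τ) (f : MvPolynomial (Fin N) ℂ)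
    (hf : Far k r (Basic w s D t κ k r N) f) :
    Far k r (Basic w s D t κ k r N') (rename τ f) := by
  refine far_ren hτ (fun h hh => ?_) hf
  rcases hh with hh | hh
  · exact Or.inl (sums_ren hw hτ hh)
  · exact Or.inr (clustered_ren hτ hh)

theorem nrm_rename_le {n : ℕ} (σ : Fin n → ℕ) (P : MvPolynomial (Fin n) ℤ) :
    nrm (rename σ P) ≤ ∑ a ∈ P.support, (coeff a P).natAbs := by
  classical
  conv_lhs => rw [P.as_sum, map_sum]
  refine (nrm_sum _ _).trans (Finset.sum_le_sum fun a _ => ?_)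
  rw [rename_monomial]
  have h1 := nrm_monomial_mul (Finsupp.mapDomain σ a) (coeff a P) (1 : MvPolynomial ℕ ℤ)
  rw [mul_one] at h1
  have h2 := nrm_one (σ := ℕ)
  calc nrm (monomial (Finsupp.mapDomain σ a) (coeff a P))
      ≤ (coeff a P).natAbs * nrm (1 : MvPolynomial ℕ ℤ) := h1
    _ ≤ (coeff a P).natAbs * 1 := Nat.mul_le_mul_left _ h2
    _ = _ := mul_one _

theorem few_fewS {w s D t κ k r n v : ℕ} (hw : 1 ≤ w)
    (hv : ∀ (N : ℕ) (f : MvPolynomial (Fin N) ℂ), Far k r (Basic w s D t κ k r N) f → f ≠ 0 →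
      f ∉ genI (nd N) v) (σ : Fin n → ℕ) (hσ : Function.Injective σ)
    {F : MvPolynomial (Fin n) ℚ} (hF : Few w s D t κ k r n F) : FewS v n (rename σ F) := by
  classical
  obtain ⟨g, e, c, hg, he, hspan, rfl⟩ := hF
  set g' : Fin n → MvPolynomial (Fin n) ℤ := fun j => if ∃ i, e i j ≠ 0 then g j else 1 with hg'
  have hpow : ∀ i j, g' j ^ e i j = g j ^ e i j := by
    intro i j
    by_cases h : ∃ i, e i j ≠ 0
    · simp only [hg', if_pos h]
    · have h1 : e i j = 0 := by
        by_contra h2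
        exact h ⟨i, h2⟩
      rw [h1, pow_zero, pow_zero]
  have hg'0 : ∀ j, g' j ≠ 0 := by
    intro j
    by_cases h : ∃ i, e i j ≠ 0
    · simp only [hg', if_pos h]; exact (hg j).1
    · simp only [hg', if_neg h]; exact one_ne_zero
  have hg'd : ∀ j, (g' j).totalDegree ≤ n := by
    intro j
    by_cases h : ∃ i, e i j ≠ 0
    · simp only [hg', if_pos h]; exact (hg j).2.1
    · simp only [hg', if_neg h, totalDegree_one]; exact Nat.zero_le _
  have hg'n : ∀ j, nrm (rename σ (g' j)) ≤ 2 ^ n := by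
    intro j
    by_cases h : ∃ i, e i j ≠ 0
    · simp only [hg', if_pos h]
      exact (nrm_rename_le σ (g j)).trans (hg j).2.2
    · simp only [hg', if_neg h, map_one]
      exact nrm_one.trans Nat.one_le_two_pow
  refine ⟨Finset.univ.image σ, fun j => rename σ (g' j), e, c, ?_, ?_, he, ?_, ?_⟩
  · refine Finset.card_image_le.trans ?_
    rw [Finset.card_univ, Fintype.card_fin]
  · intro j
    refine ⟨?_, (totalDegree_rename_le _ _).trans (hg'd j), hg'n j⟩
    refine (vars_rename σ (g' j)).trans ?_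
    exact Finset.image_subset_image (Finset.subset_univ _)
  · refine injS_of (fun N => {f | Far k r (Basic w s D t κ k r N) f})
      (fun N N' τ hτ f hf => far_basic_ren hw N N' τ hτ f hf)
      (fun N f hf hf0 => hv N f hf hf0) σ hσ g' e hg'0 ?_ ?_
    · intro j
      by_cases h : ∃ i, e i j ≠ 0
      · exact Or.inr h
      · left
        simp only [hg', if_neg h]
    · intro δ
      have h1 : ∑ i, C (δ i) * ∏ j, g' j ^ e i j = ∑ i, C (δ i) * ∏ j, g j ^ e i j := by
        refine Finset.sum_congr rfl fun i _ => ?_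
        congr 1
        exact Finset.prod_congr rfl fun j _ => hpow i j
      rw [h1]
      exact hspan δ
  · rw [map_sum]
    refine Finset.sum_congr rfl fun i _ => ?_
    rw [map_mul, rename_C, map_prod]
    congr 1
    refine Finset.prod_congr rfl fun j _ => ?_
    rw [map_pow, iQ, map_rename, ← map_pow, ← map_pow, ← map_pow, ← map_pow, hpow]

theorem tame_tameS {w s D t κ k r n v : ℕ} (hw : 1 ≤ w)
    (hv : ∀ (N : ℕ) (f : MvPolynomial (Fin N) ℂ), Far k r (Basic w s D t κ k r N) f → f ≠ 0 →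
      f ∉ genI (nd N) v) {f : MvPolynomial ℕ ℤ} (hf : Tame w s D t κ k r n f) : TameS v n f := by
  classical
  obtain ⟨σ, f', hσ, rfl, ⟨Q, hQ, hcont⟩, F, hF, hdvd⟩ := hf
  refine ⟨⟨Q, hQ, fun p hp hpn hpQ hd => hcont p hp hpn hpQ ?_⟩,
    fun a => rename σ (F a), fun a => ⟨fun h0 => (hF a).1 ?_, few_fewS hw hv σ hσ (hF a).2⟩, ?_⟩
  · have h1 := map_dvd (killCompl hσ) hd
    rw [killCompl_rename_app, killCompl_C] at h1
    exact h1
  · exact rename_injective σ hσ (by rw [map_zero]; exact h0)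
  · rw [map_rename, ← map_prod]
    exact map_dvd (rename σ) hdvd

/-- The main theorem. -/
theorem main (w s D t κ k r c : ℕ) (hw : 1 ≤ w) : ∃ A : List Bool → List Bool, PolyTime A ∧
    (∀ x, A x = [true] ∨ A x = [false]) ∧
    (∀ x ∈ ACIT, A x = [true]) ∧
    (∀ x, (∀ C : List Gate, WF C → bits C ≠ x) → A x = [false]) ∧
    ∀ C : List Gate, Tame w s D t κ k r ((bits C).length ^ c) (cpoly C) →
      A (bits C) = [false] := by
  obtain ⟨v, hv1, hv⟩ := exists_seeds w s D t κ k r
  obtain ⟨A, h1, h2, h3, h4, h5⟩ := main_theoremS hv1 c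
  exact ⟨A, h1, h2, h3, h4, fun C hC => h5 C (tame_tameS hw hv hC)⟩

end Pool.Agent.W936
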